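import Pool.Agent.H30.LMI.Conv

/-!
# The smallest lattice packing density of cones over convex disks

For every convex disk `K`, the cone over `K` (with any apex off the plane of `K`) has lattice packing
density at least `18/49`, and more than `18/49` unless `K` is a triangle.
-/

set_option autoImplicit false

namespace Pool.Agent.Results.MP_4ad723_co.LatticeMinimum

open Pool.H30.LMI

/-- Let `P` be the Euclidean plane and `E` Euclidean space. For every convex disk `K` in `P`, every
injective affine map `x ↦ L x + b` of `P` to `E` and every point `v` of `E` off its image, the cone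
`C` with apex `v` over the image of `K` satisfies `18/49 ≤ δ_L(C) ≤ δ_T(C)`, and `18/49 < δ_L(C)`
if `K` is not a triangle. -/
theorem result {P E : Type} [NormedAddCommGroup P] [InnerProductSpace ℝ P] [NormedAddCommGroup E]
    [InnerProductSpace ℝ E] [FiniteDimensional ℝ E] [MeasurableSpace E] [BorelSpace E]
    (hP : Module.finrank ℝ P = 2) (hE : Module.finrank ℝ E = 3) (K : Set P) (hK : IsDisk K)
    (L : P →ₗ[ℝ] E) (hL : Function.Injective L) (b v : E) (hv : ∀ x, L x + b ≠ v) :
    18 / 49 ≤ deltaL (cone L b v K) ∧ deltaL (cone L b v K) ≤ deltaT (cone L b v K) ∧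
      ((¬ ∃ x y z : P, K = convexHull ℝ {x, y, z}) → 18 / 49 < deltaL (cone L b v K)) :=
  main hP hE K hK L hL b v hv

end Pool.Agent.Results.MP_4ad723_co.LatticeMinimum
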